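import Mathlib
import Pool.Agent.K7.H54.HR.FinO

/-!
# The average of `2 ^ rank` in semistable families over the projective line, ordered by height

`W_t : y² = x (x - u₀(t)) (x - u₁(t))`, where `u₀`, `u₁` and `u₂ = u₀ - u₁` are polynomials with
integer coefficients such that the elliptic curve over `ℚ(t)` is semistable over the whole projective
line, infinity included, and all the multiplicities are odd. The parameter `t` runs over the RATIONAL
numbers of height at most `T`. Let `n_k` and `s_k` be the numbers of the places of bad reduction, and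
of split reduction, of the class `k`: irreducible factors of `u_k`, and infinity if `deg u_k < 2 m`,
where `2 m` is the largest degree. If `2 n_k + s_k ≤ n₀ + n₁ + n₂` for `k = 0, 1, 2`, the average of
`2 ^ rank * #Ш[2 ^ k] ^ (1 / k)` over the rational numbers `t` of height at most `T` is bounded.

The condition holds for example if `u₀`, `u₁`, `u₂` are irreducible and of the same even degree.
-/

set_option autoImplicit false

namespace Pool.Agent.K7.H54.Old.SemistableRationalAverage

open Finset Polynomial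

open Pool.Agent.TH841.SH.D (Sha ShaTor HasDiv rk)

/-- the curve `y² = x (x - A) (x - B)` over `ℚ` -/
def E (A B : ℚ) : WeierstrassCurve ℚ := ⟨0, -(A + B), 0, A * B, 0⟩

/-- `u_k = a_k ∏ f_{k,i} ^ e_{k,i}` -/
noncomputable def u {n : Fin 3 → ℕ} (a : Fin 3 → ℤ) (f : ∀ k : Fin 3, Fin (n k) → ℤ[X])
    (e : ∀ k : Fin 3, Fin (n k) → ℕ) (k : Fin 3) : ℤ[X] := C (a k) * ∏ i, f k i ^ e k i

/-- the value of a polynomial at a rational number -/
noncomputable def val (g : ℤ[X]) (t : ℚ) : ℚ := (g.map (Int.castRingHom ℚ)).eval t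

/-- `v` is a square modulo `f`, over the rationals -/
def SqMod (f v : ℤ[X]) : Prop := ∃ q : ℚ[X], f.map (Int.castRingHom ℚ) ∣
  (q ^ 2 - v.map (Int.castRingHom ℚ))

/-- at a place of the class `k` the curve `y² = x (x - u₀) (x - u₁)` has a node whose tangent
directions are the square roots of `v_k` -/
noncomputable def v {n : Fin 3 → ℕ} (a : Fin 3 → ℤ) (f : ∀ k : Fin 3, Fin (n k) → ℤ[X])
    (e : ∀ k : Fin 3, Fin (n k) → ℕ) : Fin 3 → ℤ[X] := ![-u a f e 1, -u a f e 0, u a f e 0]

open Classical in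
/-- The number of the places of bad reduction of the class `k`: the `n_k` polynomials `f_{k,i}`, and
infinity if the degree of `u_k` is less than `2 m`. -/
noncomputable def N {n : Fin 3 → ℕ} (a : Fin 3 → ℤ) (f : ∀ k : Fin 3, Fin (n k) → ℤ[X])
    (e : ∀ k : Fin 3, Fin (n k) → ℕ) (m : ℕ) (k : Fin 3) : ℕ :=
  n k + (if (u a f e k).natDegree < 2 * m then 1 else 0)

open Classical in
/-- The number of the places of split reduction of the class `k`: the `f_{k,i}` such that `v_k` is a
square modulo `f_{k,i}`, and infinity if the degree of `u_k` is less than `2 m` and the coefficient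
of `v_k` of the degree `2 m` is a square. -/
noncomputable def s {n : Fin 3 → ℕ} (a : Fin 3 → ℤ) (f : ∀ k : Fin 3, Fin (n k) → ℤ[X])
    (e : ∀ k : Fin 3, Fin (n k) → ℕ) (m : ℕ) (k : Fin 3) : ℕ :=
  (univ.filter (fun i => SqMod (f k i) (v a f e k))).card +
    (if (u a f e k).natDegree < 2 * m ∧ IsSquare (((v a f e k).coeff (2 * m) : ℤ) : ℚ) then 1
      else 0)

/-- The fibre at `t`, `y² = x (x - D u₀(t)) (x - D u₁(t))` with `D` the `2 m`-th power of the
denominator of `t`: a model with integer coefficients of `y² = x (x - u₀(t)) (x - u₁(t))`, isomorphic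
to it over `ℚ` since `D` is a square. -/
noncomputable def W {n : Fin 3 → ℕ} (a : Fin 3 → ℤ) (f : ∀ k : Fin 3, Fin (n k) → ℤ[X])
    (e : ∀ k : Fin 3, Fin (n k) → ℕ) (m : ℕ) (t : ℚ) : WeierstrassCurve ℚ :=
  E ((t.den : ℚ) ^ (2 * m) * val (u a f e 0) t) ((t.den : ℚ) ^ (2 * m) * val (u a f e 1) t)

open Classical in
/-- **Theorem.** Let `u_k = a_k ∏_i f_{k,i} ^ e_{k,i}`, `k = 0, 1, 2`, be polynomials with integer
coefficients with `u₀ - u₁ = u₂`, where `a_k ≠ 0`, the `e_{k,i}` are odd and the polynomials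
`f_{k,i}` are irreducible of positive degree and pairwise non-associated. Let the largest degree of
the `u_k` be even, equal to `2 m`, and let the degree of `u_k` be odd if it is less than `2 m`. Let
`N_k` and `s_k` be the numbers of the places of bad, and of split, reduction of the class `k` and
assume that `2 N_k + s_k ≤ N₀ + N₁ + N₂` for `k = 0, 1, 2`. There is `C` such that for every `T ≥ 1`
and every finite set `S` of rational numbers `t` of height at most `T` with `u_k(t) ≠ 0`: all the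
groups `Ш(W_t)[2 ^ k]` are finite, the sum of `2 ^ rank * #Ш(W_t)[2 ^ k] ^ (1 / k)` over `t ∈ S` is
at most `C T²` for all `k ≥ 1`, and at most `C T² / 2 ^ (r + q)` of the `W_t` have rank at least `r`
and a subgroup `(ℚ₂ / ℤ₂) ^ q` in the Tate-Shafarevich group. -/
theorem result (n : Fin 3 → ℕ) (a : Fin 3 → ℤ) (f : ∀ k : Fin 3, Fin (n k) → ℤ[X])
    (e : ∀ k : Fin 3, Fin (n k) → ℕ) (m : ℕ) (ha : ∀ k, a k ≠ 0)
    (hf : ∀ k i, Irreducible (f k i) ∧ 0 < (f k i).natDegree)
    (hf' : ∀ k i l j, (⟨k, i⟩ : Σ k : Fin 3, Fin (n k)) ≠ ⟨l, j⟩ → ¬ Associated (f k i) (f l j))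
    (he : ∀ k i, Odd (e k i)) (hu : u a f e 0 - u a f e 1 = u a f e 2)
    (hm : ∀ k, (u a f e k).natDegree = 2 * m ∨
      ((u a f e k).natDegree < 2 * m ∧ Odd (u a f e k).natDegree))
    (hm' : ∃ k, (u a f e k).natDegree = 2 * m)
    (hs : ∀ k, 2 * N a f e m k + s a f e m k ≤ N a f e m 0 + N a f e m 1 + N a f e m 2) :
    ∃ C : ℝ, ∀ T : ℕ, 1 ≤ T → ∀ S : Finset ℚ,
      (∀ t ∈ S, t.num.natAbs ≤ T ∧ t.den ≤ T ∧ ∀ k, val (u a f e k) t ≠ 0) →
      (∀ t ∈ S, ∀ k : ℕ, Finite (ShaTor (W a f e m t) (2 ^ k))) ∧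
      (∀ k : ℕ, 1 ≤ k → ∑ t ∈ S, (2 : ℝ) ^ rk (W a f e m t) *
        (Nat.card (ShaTor (W a f e m t) (2 ^ k)) : ℝ) ^ ((1 : ℝ) / k) ≤ C * (T : ℝ) ^ 2) ∧
      ∀ r q : ℕ, ((S.filter (fun t => r ≤ rk (W a f e m t) ∧
        HasDiv (W a f e m t) q)).card : ℝ) ≤ C * (T : ℝ) ^ 2 / 2 ^ (r + q) := by
  have h : Pool.Agent.K7.H54.HR.HY a f e m :=
    ⟨ha, hf, hf', fun k i => (he k i).pos, hu, fun k => (hm k).elim le_of_eq fun h => h.1.le, hm'⟩
  refine Pool.Agent.K7.H54.HR.mainQO h he (fun k hk => ?_) (fun k => ?_)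
  · rcases hm k with h1 | h1
    · have h2 : (Pool.Agent.K7.H54.HR.uf a f e k).natDegree = 2 * m := h1
      omega
    · exact h1.2
  · have h1 : ∀ k, Pool.Agent.K7.H54.HR.nB a f e m k = N a f e m k := fun k => by
      unfold Pool.Agent.K7.H54.HR.nB N
      congr!
    have h2 : ∀ k, Pool.Agent.K7.H54.HR.sB a f e m k = s a f e m k := fun k => by
      unfold Pool.Agent.K7.H54.HR.sB s
      congr!
    rw [h1, h1, h1, h1, h2]
    exact hs k

end Pool.Agent.K7.H54.Old.SemistableRationalAverage
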