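import Mathlib
import Pool.Agent.K7.H54.HR.Fin

/-!
# The rank in semistable families over the projective line, ordered by height

`W_t : y² = x (x - u₀(t)) (x - u₁(t))`, where `u₀`, `u₁` and `u₂ = u₀ - u₁` are polynomials with
integer coefficients such that the elliptic curve over `ℚ(t)` is semistable over the whole projective
line, infinity included. The parameter `t` runs over the RATIONAL numbers of height at most `T`.

The places of bad reduction of the class `k` are the irreducible factors `f_{k,i}` of `u_k`, with the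
multiplicities `e_{k,i}`, and infinity if `deg u_k < 2 m`, with the multiplicity `2 m - deg u_k`,
where `2 m` is the largest degree. The place has the weight `1` if the reduction is split and `1/2`
if it is not split, in `s_k`, and the weight `1` if the multiplicity is odd or the reduction is split
and `1/2` otherwise, in `d_k`. If `s_k + d_k < d₀ + d₁ + d₂` for `k = 0, 1, 2`, there is `α > 0` such
that the average of `(2 ^ rank * #Ш[2 ^ k] ^ (1 / k)) ^ α` over the rational numbers `t` of height at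
most `T` is bounded. In particular all the moments of the rank are bounded.
-/

set_option autoImplicit false

namespace Pool.Agent.K7.H54.Old.SemistableRationalParameters

open Finset Polynomial

open Pool.Agent.TH841.SH.D (Sha ShaTor HasDiv rk)

/-- the curve `y² = x (x - A) (x - B)` over `ℚ` -/
def E (A B : ℚ) : WeierstrassCurve ℚ := ⟨0, -(A + B), 0, A * B, 0⟩

/-- `u_k = a_k ∏ f_{k,i} ^ e_{k,i}` -/
noncomputable def u {n : Fin 3 → ℕ} (a : Fin 3 → ℤ) (f : ∀ k : Fin 3, Fin (n k) → ℤ[X])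
    (e : ∀ k : Fin 3, Fin (n k) → ℕ) (k : Fin 3) : ℤ[X] := C (a k) * ∏ i, f k i ^ e k i

/-- the value of a polynomial at a rational number -/
noncomputable def val (g : ℤ[X]) (t : ℚ) : ℚ := (g.map (Int.castRingHom ℚ)).eval t

/-- `v` is a square modulo `f`, over the rationals -/
def SqMod (f v : ℤ[X]) : Prop := ∃ q : ℚ[X], f.map (Int.castRingHom ℚ) ∣
  (q ^ 2 - v.map (Int.castRingHom ℚ))

/-- at a place of the class `k` the curve `y² = x (x - u₀) (x - u₁)` has a node whose tangent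
directions are the square roots of `v_k` -/
noncomputable def v {n : Fin 3 → ℕ} (a : Fin 3 → ℤ) (f : ∀ k : Fin 3, Fin (n k) → ℤ[X])
    (e : ∀ k : Fin 3, Fin (n k) → ℕ) : Fin 3 → ℤ[X] := ![-u a f e 1, -u a f e 0, u a f e 0]

/-- the reduction at infinity is split: the coefficient of `v_k` of the degree `2 m` is a square -/
def SqInf {n : Fin 3 → ℕ} (a : Fin 3 → ℤ) (f : ∀ k : Fin 3, Fin (n k) → ℤ[X])
    (e : ∀ k : Fin 3, Fin (n k) → ℕ) (m : ℕ) (k : Fin 3) : Prop :=
  IsSquare (((v a f e k).coeff (2 * m) : ℤ) : ℚ)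

open Classical in
/-- The places of bad reduction of the class `k`: split reduction counts `1`, nonsplit reduction
counts `1/2`. The last term is that of infinity. -/
noncomputable def s {n : Fin 3 → ℕ} (a : Fin 3 → ℤ) (f : ∀ k : Fin 3, Fin (n k) → ℤ[X])
    (e : ∀ k : Fin 3, Fin (n k) → ℕ) (m : ℕ) (k : Fin 3) : ℝ :=
  ∑ i, (if SqMod (f k i) (v a f e k) then (1 : ℝ) else 1 / 2) +
    (if (u a f e k).natDegree < 2 * m then (if SqInf a f e m k then (1 : ℝ) else 1 / 2) else 0)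

open Classical in
/-- The places of bad reduction of the class `k`: odd multiplicity or split reduction counts `1`,
even multiplicity and nonsplit reduction counts `1/2`. The last term is that of infinity, with the
multiplicity `2 m - deg u_k`. -/
noncomputable def d {n : Fin 3 → ℕ} (a : Fin 3 → ℤ) (f : ∀ k : Fin 3, Fin (n k) → ℤ[X])
    (e : ∀ k : Fin 3, Fin (n k) → ℕ) (m : ℕ) (k : Fin 3) : ℝ :=
  ∑ i, (if Odd (e k i) ∨ SqMod (f k i) (v a f e k) then (1 : ℝ) else 1 / 2) +
    (if (u a f e k).natDegree < 2 * m then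
      (if Odd (u a f e k).natDegree ∨ SqInf a f e m k then (1 : ℝ) else 1 / 2) else 0)

/-- The fibre at `t`, `y² = x (x - D u₀(t)) (x - D u₁(t))` with `D` the `2 m`-th power of the
denominator of `t`: a model with integer coefficients of `y² = x (x - u₀(t)) (x - u₁(t))`, isomorphic
to it over `ℚ` since `D` is a square. -/
noncomputable def W {n : Fin 3 → ℕ} (a : Fin 3 → ℤ) (f : ∀ k : Fin 3, Fin (n k) → ℤ[X])
    (e : ∀ k : Fin 3, Fin (n k) → ℕ) (m : ℕ) (t : ℚ) : WeierstrassCurve ℚ :=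
  E ((t.den : ℚ) ^ (2 * m) * val (u a f e 0) t) ((t.den : ℚ) ^ (2 * m) * val (u a f e 1) t)

lemma s_eq {n : Fin 3 → ℕ} (a : Fin 3 → ℤ) (f : ∀ k : Fin 3, Fin (n k) → ℤ[X])
    (e : ∀ k : Fin 3, Fin (n k) → ℕ) (m : ℕ) (k : Fin 3) :
    s a f e m k = Pool.Agent.K7.H54.HR.sW a f e m k := by
  unfold s Pool.Agent.K7.H54.HR.sW
  congr!

lemma d_eq {n : Fin 3 → ℕ} (a : Fin 3 → ℤ) (f : ∀ k : Fin 3, Fin (n k) → ℤ[X])
    (e : ∀ k : Fin 3, Fin (n k) → ℕ) (m : ℕ) (k : Fin 3) :
    d a f e m k = Pool.Agent.K7.H54.HR.dW a f e m k := by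
  unfold d Pool.Agent.K7.H54.HR.dW
  congr!

open Classical in
/-- **Theorem.** Let `u_k = a_k ∏_i f_{k,i} ^ e_{k,i}`, `k = 0, 1, 2`, be polynomials with integer
coefficients with `u₀ - u₁ = u₂`, where `a_k ≠ 0`, `e_{k,i} ≥ 1` and the polynomials `f_{k,i}` are
irreducible of positive degree and pairwise non-associated, and let the largest degree of the `u_k`
be even, equal to `2 m`. Let `s_k` and `d_k` be the weights of the places of bad reduction of
`y² = x (x - u₀) (x - u₁)` and assume that `s_k + d_k < d₀ + d₁ + d₂` for `k = 0, 1, 2`. There are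
`α > 0` and `C` such that for every `T ≥ 1` and every finite set `S` of rational numbers `t` of height
at most `T` with `u_k(t) ≠ 0`: all the groups `Ш(W_t)[2 ^ k]` are finite, the sum of
`(2 ^ rank * #Ш(W_t)[2 ^ k] ^ (1 / k)) ^ α` over `t ∈ S` is at most `C T²` for all `k ≥ 1`, and at
most `C T² / 2 ^ (α (r + q))` of the `W_t` have rank at least `r` and a subgroup `(ℚ₂ / ℤ₂) ^ q` in
the Tate-Shafarevich group. -/
theorem result (n : Fin 3 → ℕ) (a : Fin 3 → ℤ) (f : ∀ k : Fin 3, Fin (n k) → ℤ[X])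
    (e : ∀ k : Fin 3, Fin (n k) → ℕ) (m : ℕ) (ha : ∀ k, a k ≠ 0)
    (hf : ∀ k i, Irreducible (f k i) ∧ 0 < (f k i).natDegree)
    (hf' : ∀ k i l j, (⟨k, i⟩ : Σ k : Fin 3, Fin (n k)) ≠ ⟨l, j⟩ → ¬ Associated (f k i) (f l j))
    (he : ∀ k i, 1 ≤ e k i) (hu : u a f e 0 - u a f e 1 = u a f e 2)
    (hm : ∀ k, (u a f e k).natDegree ≤ 2 * m) (hm' : ∃ k, (u a f e k).natDegree = 2 * m)
    (hs : ∀ k, s a f e m k + d a f e m k < d a f e m 0 + d a f e m 1 + d a f e m 2) :
    ∃ α : ℝ, 0 < α ∧ ∃ C : ℝ, ∀ T : ℕ, 1 ≤ T → ∀ S : Finset ℚ,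
      (∀ t ∈ S, t.num.natAbs ≤ T ∧ t.den ≤ T ∧ ∀ k, val (u a f e k) t ≠ 0) →
      (∀ t ∈ S, ∀ k : ℕ, Finite (ShaTor (W a f e m t) (2 ^ k))) ∧
      (∀ k : ℕ, 1 ≤ k → ∑ t ∈ S, ((2 : ℝ) ^ rk (W a f e m t) *
        (Nat.card (ShaTor (W a f e m t) (2 ^ k)) : ℝ) ^ ((1 : ℝ) / k)) ^ α ≤ C * (T : ℝ) ^ 2) ∧
      ∀ r q : ℕ, ((S.filter (fun t => r ≤ rk (W a f e m t) ∧
        HasDiv (W a f e m t) q)).card : ℝ) ≤ C * (T : ℝ) ^ 2 / (2 : ℝ) ^ (α * (r + q)) := by
  have h : Pool.Agent.K7.H54.HR.HY a f e m := ⟨ha, hf, hf', he, hu, hm, hm'⟩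
  simp only [s_eq, d_eq] at hs
  exact Pool.Agent.K7.H54.HR.mainQ h hs

end Pool.Agent.K7.H54.Old.SemistableRationalParameters
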